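import Pool.Agent.H865_small.Glob2

/-!
# Smoothing of continuous maps to `ℝⁿ`, with control
-/

set_option autoImplicit false

open Set Filter Topology Metric Function MeasureTheory
open scoped Manifold ContDiff

noncomputable section

namespace Pool.Agent.H865_sch

open Pool.Agent.Y522 (LD)
open Pool.Agent.H865_small

variable {n m : ℕ} {ρ : ℝ} {X : Type} [TopologicalSpace X] {e : X → E m} {F : X → E n} [ChartedSpace (E n) X]

/-- **Smoothing with control.** -/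
theorem sglob3 [T2Space X] [LocallyCompactSpace X] [IsManifold (𝓡 n) ∞ X] (h1 : ρ ^ 2 < 1) {η : ℝ} (hη0 : 0 < η)
    (hA : Adm n ρ η) (hF : Continuous F)
    (he : IsEmbedding e) (hI : ∀ x, Imm (n := n) e x) (hK : IsCompact {x | ¬ LD n F x}) {S : Set ℝ}
    (hS : ∃ᶠ s in 𝓝[>] (0 : ℝ), s ∈ S) (hη2 : ∀ x, ¬ LD n F x → TRec e F S η x)
    {O' : Set X} (hO' : IsOpen O') (hKO : {x | ¬ LD n F x} ⊆ O') {ε : ℝ} (hε : 0 < ε) :
    ∃ (F' : X → E n) (C : Set X), IsCompact C ∧ C ⊆ O' ∧ (∀ p, p ∉ C → F' p = F p) ∧ (∀ x, LD n F' x) ∧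
      ∀ x, ‖F' x - F x‖ < ε := by
  obtain ⟨β, hβe⟩ : ∃ β : E n → ℝ, β = fun z => max 0 (1 - ‖z‖) := ⟨_, rfl⟩
  have hβ : Continuous β := by rw [hβe]; fun_prop
  have hβ0 : ∀ z, 0 ≤ β z := fun z => by rw [hβe]; exact le_max_left _ _
  have hβs : ∀ z, 1 < ‖z‖ → β z = 0 := fun z hz => by rw [hβe]; exact max_eq_left (by linarith)
  have hβp : ∀ z, ‖z‖ < 1 → 0 < β z := fun z hz => by
    rw [hβe]; exact lt_max_of_lt_right (by linarith)
  -- the charts
  choose Bx hBx0 hBxi hBxl using fun x : X => exists_chartB (n := n) x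
  have hBo : ∀ x, IsOpen (Bx x '' ball 0 1) := fun x =>
    Pool.Agent.Y522.isOpen_image_of_LD isOpen_ball fun z _ => hBxl x z
  obtain ⟨t, htK⟩ := hK.elim_finite_subcover (fun x => Bx x '' ball 0 1) hBo (by
    intro x _
    exact mem_iUnion.2 ⟨x, 0, by simp, hBx0 x⟩)
  obtain ⟨B, hBe⟩ : ∃ B : t → E n → X, B = fun i : t => Bx i.1 := ⟨_, rfl⟩
  have hBi : ∀ i, Injective (B i) := fun i => by rw [hBe]; exact hBxi _
  have hBl : ∀ i z, LD n (B i) z := fun i z => by rw [hBe]; exact hBxl _ z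
  have hBc : ∀ i, Continuous (B i) := fun i => continuous_iff_continuousAt.2 fun z => (hBl i z).continuousAt
  obtain ⟨W, hW⟩ : ∃ W, W = ⋃ i : t, B i '' ball 0 1 := ⟨_, rfl⟩
  have hWo : IsOpen W := by
    rw [hW]
    exact isOpen_iUnion fun i => by rw [hBe]; exact hBo _
  have hKW : {x | ¬ LD n F x} ⊆ W := by
    intro x hx
    obtain ⟨y, hy⟩ := mem_iUnion.1 (htK hx)
    obtain ⟨hyt, hy⟩ := mem_iUnion.1 hy
    rw [hW]
    exact mem_iUnion.2 ⟨⟨y, hyt⟩, by rw [hBe]; exact hy⟩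
  have hWp : ∀ x ∈ W, ∃ (i : t) (ζ : E n), ‖ζ‖ < 1 ∧ B i ζ = x := by
    intro x hx
    rw [hW] at hx
    obtain ⟨i, ζ, hζ, hx⟩ := mem_iUnion.1 hx
    exact ⟨i, ζ, by rwa [mem_ball_zero_iff] at hζ, hx⟩
  obtain ⟨L, hL, hKL, hLWO⟩ := exists_compact_between hK (hWo.inter hO') (subset_inter hKW hKO)
  have hLW : L ⊆ W := hLWO.trans inter_subset_left
  have hZ : ∀ x ∈ W, ∀ s : ℝ, 0 < Zs ρ β (fun i z => e (B i z)) s (e x) := by
    intro x hx s
    obtain ⟨i0, ζ, hζ, rfl⟩ := hWp x hx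
    exact Zs_pos (q := fun i z => e (B i z)) h1 hβ hβ0 hβs hβp (fun i => he.continuous.comp (hBc i)) i0 hζ
  obtain ⟨O, hO, hOL⟩ := he.toIsInducing.isOpen_iff.1 (isOpen_interior (s := L))
  obtain ⟨Λ, hΛ1, hΛ2, hΛ3⟩ := exists_contMDiffMap_one_nhds_of_subset_interior (n := ⊤) 𝓘(ℝ, E m) (s := e '' {x | ¬ LD n F x})
    (t := O) (hK.image he.continuous).isClosed (by
      rw [hO.interior_eq]
      rintro _ ⟨x, hx, rfl⟩
      have := hKL hx
      rw [← hOL] at this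
      exact this)
  have hΛs : ContDiff ℝ ∞ Λ := Λ.contMDiff.contDiff
  -- the local statement
  have hloc : ∀ x ∈ L, {p : ℝ × X | (p.1 ∈ S → LD n (Fp ρ β e F B Λ p.1) p.2) ∧
      ‖Gs ρ β (fun i z => e (B i z)) (fun i z => F (B i z)) p.1 (e p.2) - F p.2‖ < ε} ∈ 𝓝[>] (0 : ℝ) ×ˢ 𝓝 x := by
    intro x hx
    have hclose : ∀ᶠ t : ℝ × X in 𝓝[>] (0 : ℝ) ×ˢ 𝓝 x,
        ‖Gs ρ β (fun i z => e (B i z)) (fun i z => F (B i z)) t.1 (e t.2) - F t.2‖ < ε := by
      have hU : {y | ‖F y - F x‖ < ε / 3} ∈ 𝓝 x := by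
        have h2 : Tendsto (fun y => ‖F y - F x‖) (𝓝 x) (𝓝 ‖F x - F x‖) :=
          (hF.sub continuous_const).norm.tendsto x
        rw [sub_self, norm_zero] at h2
        exact h2.eventually (gt_mem_nhds (by positivity))
      have hW' : ∀ᶠ y in 𝓝 x, y ∈ W := hWo.mem_nhds (hLW hx)
      have hpos : ∀ᶠ t : ℝ × X in 𝓝[>] (0 : ℝ) ×ˢ 𝓝 x, 0 < t.1 :=
        (tendsto_fst (f := 𝓝[>] (0 : ℝ)) (g := 𝓝 x)).eventually self_mem_nhdsWithin
      filter_upwards [emb_near' he hU, (tendsto_snd (f := 𝓝[>] (0 : ℝ)) (g := 𝓝 x)).eventually hU,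
        (tendsto_snd (f := 𝓝[>] (0 : ℝ)) (g := 𝓝 x)).eventually hW', hpos] with t ht1 ht2 ht3 ht4
      have h3 : ‖Gs ρ β (fun i z => e (B i z)) (fun i z => F (B i z)) t.1 (e t.2) - F t.2‖ ≤ 2 * ε / 3 := by
        refine Gs_close (g := fun i z => F (B i z)) h1 hβ hβ0 hβs (fun i => he.continuous.comp (hBc i))
          (fun i => hF.comp (hBc i)) ht4 (hZ _ ht3 _) fun i z _ hz => ?_
        have h4 : ‖F (B i z) - F x‖ < ε / 3 := ht1 _ hz
        have h5 : F (B i z) - F t.2 = (F (B i z) - F x) - (F t.2 - F x) := by abel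
        rw [h5]
        refine (norm_sub_le _ _).trans ?_
        linarith
      linarith
    obtain ⟨i0, ζ, hζ, rfl⟩ := hWp x (hLW hx)
    have h2 : ∀ᶠ t : ℝ × E n in 𝓝[>] 0 ×ˢ 𝓝 ζ, t.1 ∈ S → LD n (Fp ρ β e F B Λ t.1) (B i0 t.2) := by
      by_cases hg : LD n F (B i0 ζ)
      · filter_upwards [local_good h1 hη0 hA hβ hβ0 hβs hβp he hI hF hBi hBl hΛs (fun p => (hΛ3 p).1)
          (fun p => (hΛ3 p).2) i0 hζ hg] with t ht _
        exact ht
      · have h3 := local_bad h1 hA hβ hβ0 hβs hβp he hI hF hBi hBl i0 hζ (hη2 _ hg)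
        have h4 : ∀ᶠ y in 𝓝 (B i0 ζ), Λ (e y) = 1 :=
          he.continuous.continuousAt.eventually
            (Filter.Eventually.filter_mono (nhds_le_nhdsSet (mem_image_of_mem e hg)) hΛ1)
        have h5 : ∀ᶠ z in 𝓝 ζ, ∀ᶠ y in 𝓝 (B i0 z), Λ (e y) = 1 :=
          (hBl i0 ζ).continuousAt.eventually h4.eventually_nhds
        filter_upwards [h3, tendsto_snd.eventually h5] with t ht1 ht2 htS
        refine (ht1 htS).congr ?_
        filter_upwards [ht2] with y hy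
        unfold Fp
        rw [hy, one_smul]
        abel
    obtain ⟨p, hp, hp0, -, hp2⟩ := (hBl i0 ζ).exists_inverse
    have h3 : Tendsto (fun t : ℝ × X => (t.1, p t.2)) (𝓝[>] (0 : ℝ) ×ˢ 𝓝 (B i0 ζ)) (𝓝[>] 0 ×ˢ 𝓝 ζ) := by
      have h4 : Tendsto p (𝓝 (B i0 ζ)) (𝓝 ζ) := by
        have := hp.continuousAt.tendsto
        rwa [hp0] at this
      exact tendsto_fst.prodMk (h4.comp tendsto_snd)
    filter_upwards [h3.eventually h2, tendsto_snd.eventually hp2, hclose] with t ht1 ht2 ht3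
    rw [ht2] at ht1
    exact ⟨ht1, ht3⟩
  have hunif := hL.mem_prod_nhdsSet_of_forall hloc
  obtain ⟨S', hS', T, hT, hST⟩ := Filter.mem_prod_iff.1 hunif
  have hS'' : ∀ᶠ s in 𝓝[>] (0 : ℝ), s ∈ S' := hS'
  have hS3 : ∀ᶠ s in 𝓝[>] (0 : ℝ), 0 < s := self_mem_nhdsWithin
  obtain ⟨s, hsS, hsS', hs0⟩ : ∃ s, s ∈ S ∧ s ∈ S' ∧ 0 < s := (hS.and_eventually (hS''.and hS3)).exists
  have hmain : ∀ x ∈ L, (s ∈ S → LD n (Fp ρ β e F B Λ s) x) ∧
      ‖Gs ρ β (fun i z => e (B i z)) (fun i z => F (B i z)) s (e x) - F x‖ < ε := by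
    intro x hx
    have h9 : (s, x) ∈ S' ×ˢ T := ⟨hsS', subset_of_mem_nhdsSet hT hx⟩
    exact hST h9
  have hoff : ∀ x, x ∉ L → Fp ρ β e F B Λ s x = F x := by
    intro x hx
    have h2 : e x ∉ O := by
      intro h3
      have h4 : x ∈ e ⁻¹' O := h3
      rw [hOL] at h4
      exact hx (interior_subset h4)
    unfold Fp
    rw [hΛ2 _ h2, zero_smul, add_zero]
  refine ⟨Fp ρ β e F B Λ s, L, hL, hLWO.trans inter_subset_right, hoff, ?_, ?_⟩
  · intro x
    by_cases hx : x ∈ L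
    · exact (hmain x hx).1 hsS
    · have hxg : LD n F x := by
        by_contra hcon
        exact hx (interior_subset (hKL hcon))
      refine hxg.congr ?_
      filter_upwards [hL.isClosed.isOpen_compl.mem_nhds hx] with y hy
      exact hoff y hy
  · intro x
    by_cases hx : x ∈ L
    · have h2 := (hmain x hx).2
      have h3 := (hΛ3 (e x)).1
      have h4 := (hΛ3 (e x)).2
      unfold Fp
      rw [add_sub_cancel_left, norm_smul, Real.norm_eq_abs, abs_of_nonneg h3]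
      calc Λ (e x) * ‖Gs ρ β (fun i z => e (B i z)) (fun i z => F (B i z)) s (e x) - F x‖
          ≤ 1 * ‖Gs ρ β (fun i z => e (B i z)) (fun i z => F (B i z)) s (e x) - F x‖ :=
            mul_le_mul_of_nonneg_right h4 (norm_nonneg _)
        _ < ε := by rw [one_mul]; exact h2
    · rw [hoff x hx, sub_self, norm_zero]
      exact hε

end Pool.Agent.H865_sch
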