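import Pool.Agent.H865_sch.Inj
import Pool.Agent.H865_sch.Glob3
import Pool.Agent.H865_small.Assembly
import Pool.Agent.R865.SchT

/-!
# Maps of the ball which are coarsely affine at the bad points

Auxiliary file for `MP_6c077c_gt.CoarselyAffineBall`.
-/

set_option autoImplicit false

open Set Filter Topology Metric Function
open scoped Manifold ContDiff

noncomputable section

namespace Pool.Agent.H865_sch

open Pool.Agent.Y522 (LD)
open Pool.Agent.H865_small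
open Pool.Agent.R865.SchT (UBall)

theorem sch_core (k m : ℕ) (hk : 1 ≤ k) (H : E (k + 1) → E (k + 1)) (hc : ContinuousOn H (closedBall 0 1))
    (hi : InjOn H (sphere 0 1)) (hs : ∀ x, ‖x‖ = 1 → LD (k + 1) H x)
    (e : E (k + 1) → E m) (hec : ContinuousOn e (closedBall 0 1)) (hei : InjOn e (closedBall 0 1))
    (hes : ∀ x, ‖x‖ < 1 → ContDiffAt ℝ ∞ e x ∧ Injective (fderiv ℝ e x))
    (S : Set ℝ) (hS : ∀ δ : ℝ, 0 < δ → ∃ s ∈ S, 0 < s ∧ s < δ)
    (h : ∀ x, ‖x‖ < 1 → ¬ LD (k + 1) H x → ∃ η : ℝ, η < vol (k + 1) / (2 * vol k) ∧ WW e H S η x)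
    (O : Set (E (k + 1))) (hO : IsOpen O) (hbad : ∀ x, ‖x‖ < 1 → ¬ LD (k + 1) H x → x ∈ O)
    (ε : ℝ) (hε : 0 < ε) :
    ∃ (G : E (k + 1) → E (k + 1)) (O' : E (k + 1) ≃ₗᵢ[ℝ] E (k + 1)) (R : ℝ), Bijective G ∧
      (∀ x, LD (k + 1) G x) ∧ (∀ x, ‖x‖ ≤ 1 → ‖G x - H x‖ < ε) ∧
      (∀ x, ‖x‖ ≤ 1 → x ∉ O → G x = H x) ∧ (∀ x, ‖x‖ = 1 → G x = H x) ∧ ∀ x, R ≤ ‖x‖ → G x = O' x := by
  classical
  obtain ⟨F, hF⟩ : ∃ F : UBall (k + 1) → E (k + 1), F = fun x => H x.1 := ⟨_, rfl⟩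
  have hub : ∀ x : UBall (k + 1), ‖x.1‖ < 1 := fun x => mem_ball_zero_iff.1 x.2
  have hFc : Continuous F := by
    rw [hF]
    exact hc.comp_continuous continuous_subtype_val fun x => mem_closedBall_zero_iff.2 (hub x).le
  have hFL : ∀ x : UBall (k + 1), LD (k + 1) F x ↔ LD (k + 1) H x.1 := by
    intro x
    constructor
    · intro h1
      rw [hF] at h1
      exact Pool.Agent.R769.LD_of_restrict (UBall (k + 1)) h1
    · intro h1
      rw [hF]
      exact Pool.Agent.Y522.LD.comp_fun (g := H) (f := (Subtype.val : UBall (k + 1) → E (k + 1))) h1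
        (Pool.Agent.R769.LD_val (UBall (k + 1)) x)
  have hvc : Continuous (Subtype.val : UBall (k + 1) → E (k + 1)) := continuous_subtype_val
  have hvi : IsInducing (Subtype.val : UBall (k + 1) → E (k + 1)) := IsInducing.subtypeVal
  have hK : IsCompact {x | ¬ LD (k + 1) F x} := by
    rw [hvi.isCompact_iff]
    have h1 : (Subtype.val : UBall (k + 1) → E (k + 1)) '' {x | ¬ LD (k + 1) F x} =
        closedBall 0 1 ∩ {x | LD (k + 1) H x}ᶜ := by
      ext x
      constructor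
      · rintro ⟨y, hy, rfl⟩
        refine ⟨mem_closedBall_zero_iff.2 (hub y).le, fun hl => hy ((hFL y).2 hl)⟩
      · rintro ⟨h1, h2⟩
        rw [mem_closedBall_zero_iff] at h1
        rcases h1.lt_or_eq with h3 | h3
        · exact ⟨⟨x, mem_ball_zero_iff.2 h3⟩, fun hl => h2 ((hFL _).1 hl), rfl⟩
        · exact absurd (hs x h3) h2
    rw [h1]
    refine (isCompact_closedBall 0 1).inter_right (IsOpen.isClosed_compl ?_)
    rw [isOpen_iff_mem_nhds]
    intro x hx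
    exact Pool.Agent.Y522.LD.eventually hx
  -- the embedding
  have hee : IsEmbedding fun x : UBall (k + 1) => e x.1 := by
    have h1 : IsClosedEmbedding fun x : closedBall (0 : E (k + 1)) 1 => e x.1 := by
      have h3 : Continuous fun x : closedBall (0 : E (k + 1)) 1 => e x.1 := hec.domRestrict
      exact h3.isClosedEmbedding fun x y hxy => Subtype.ext (hei x.2 y.2 hxy)
    exact h1.isEmbedding.comp (IsEmbedding.inclusion (s := ball (0 : E (k + 1)) 1) ball_subset_closedBall)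
  have hI : ∀ x : UBall (k + 1), Imm (n := k + 1) (fun x : UBall (k + 1) => e x.1) x := by
    intro x
    obtain ⟨B, hB0, hBi, hBl⟩ := exists_chartB (n := k + 1) x
    have hvB : ∀ z, LD (k + 1) (fun z => (B z).1) z := fun z =>
      Pool.Agent.Y522.LD.comp_fun (g := (Subtype.val : UBall (k + 1) → E (k + 1))) (f := B)
        (Pool.Agent.R769.LD_val (UBall (k + 1)) _) (hBl z)
    refine ⟨B, hB0, hBl 0, Filter.Eventually.of_forall fun z => ?_, ?_⟩
    · exact ContDiffAt.comp (g := e) (f := fun z => (B z).1) z (hes _ (hub _)).1 (hvB z).contDiffAt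
    · obtain ⟨L, hL⟩ := (hvB 0).exists_equiv
      have h1 : HasFDerivAt (fun y => e (B y).1) ((fderiv ℝ e (B 0).1).comp (L : E (k + 1) →L[ℝ] E (k + 1))) 0 :=
        HasFDerivAt.comp (g := e) (f := fun z => (B z).1) 0
          ((hes _ (hub _)).1.differentiableAt (by simp)).hasFDerivAt hL
      rw [h1.fderiv]
      exact (hes _ (hub _)).2.comp L.injective
  have : LocallyCompactSpace (UBall (k + 1)) := ChartedSpace.locallyCompactSpace (E (k + 1)) (UBall (k + 1))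
  have hW : ∀ x, ¬ LD (k + 1) F x → ∃ η : ℝ, η < vol (k + 1) / (2 * vol k) ∧
      WW (fun x : UBall (k + 1) => e x.1) F S η x := by
    intro x hxF
    obtain ⟨η, hη, hw⟩ := h x.1 (hub x) (fun hl => hxF ((hFL x).2 hl))
    refine ⟨η, hη, ?_⟩
    rw [hF]
    exact WW.pull hvc hw
  have hκ : 0 < vol (k + 1) / (2 * vol k) := by
    have := vol_pos k
    have := vol_pos (k + 1)
    positivity
  obtain ⟨η, hη0, hη1, hη2⟩ := uniform_W (W := fun η x => WW (fun x : UBall (k + 1) => e x.1) F S η x)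
    (fun η η' x h1 h2 => WW.mono h1 h2) (fun η x h1 => WW.eventually h1) hκ hK hW
  obtain ⟨η', hη', hη'1⟩ := exists_between hη1
  obtain ⟨ρ, hρ, hA⟩ := adm_exists (hη0.trans hη').le hη'1
  have hS' : ∃ᶠ s in 𝓝[>] (0 : ℝ), s ∈ S := by
    rw [Filter.frequently_iff]
    intro U hU
    obtain ⟨δ, hδ, hδU⟩ := mem_nhdsGT_iff_exists_Ioo_subset.1 hU
    obtain ⟨s, hs, hs0, hsδ⟩ := hS δ hδ
    exact ⟨s, hδU ⟨hs0, hsδ⟩, hs⟩
  obtain ⟨F', C, hC, hCO, hF'C, hF'd, hF'ε⟩ := sglob3 (ρ := ρ) hρ (hη0.trans hη') hA hFc hee hI hK hS'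
    (fun x hx => TRec_of_WW hee hI hη0 hη' (hη2 x hx)) (hO.preimage hvc)
    (fun x hx => hbad x.1 (hub x) fun hl => hx ((hFL x).2 hl)) hε
  -- the new map
  obtain ⟨H', hH'1, hH'2⟩ : ∃ H' : E (k + 1) → E (k + 1), (∀ x : UBall (k + 1), H' x.1 = F' x) ∧
      ∀ x, x ∉ UBall (k + 1) → H' x = H x :=
    ⟨fun x => if hx : x ∈ UBall (k + 1) then F' ⟨x, hx⟩ else H x, fun x => dif_pos x.2, fun x hx => dif_neg hx⟩
  have hCv : IsCompact ((Subtype.val : UBall (k + 1) → E (k + 1)) '' C) := hC.image hvc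
  have hoff : ∀ x, x ∉ (Subtype.val : UBall (k + 1) → E (k + 1)) '' C → H' x = H x := by
    intro x hx
    by_cases hxu : x ∈ UBall (k + 1)
    · have h1 : (⟨x, hxu⟩ : UBall (k + 1)) ∉ C := fun h1 => hx ⟨_, h1, rfl⟩
      have h2 := hH'1 ⟨x, hxu⟩
      rw [hF'C _ h1, hF] at h2
      exact h2
    · exact hH'2 x hxu
  have hsph : ∀ x, ‖x‖ = 1 → x ∉ (Subtype.val : UBall (k + 1) → E (k + 1)) '' C := by
    rintro x hx ⟨y, -, rfl⟩
    exact (hub y).ne hx
  have hLD : ∀ x, ‖x‖ ≤ 1 → LD (k + 1) H' x := by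
    intro x hx
    rcases hx.lt_or_eq with h1 | h1
    · have h2 : LD (k + 1) (fun y : UBall (k + 1) => H' y.1) ⟨x, mem_ball_zero_iff.2 h1⟩ := by
        refine (hF'd ⟨x, mem_ball_zero_iff.2 h1⟩).congr (Filter.Eventually.of_forall fun y => hH'1 y)
      exact Pool.Agent.R769.LD_of_restrict (UBall (k + 1)) h2
    · refine (hs x h1).congr ?_
      filter_upwards [hCv.isClosed.isOpen_compl.mem_nhds (hsph x h1)] with y hy
      exact hoff y hy
  have hinjS : InjOn H' (sphere 0 1) := by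
    intro x hx y hy hxy
    rw [hoff x (hsph x (mem_sphere_zero_iff_norm.1 hx)), hoff y (hsph y (mem_sphere_zero_iff_norm.1 hy))] at hxy
    exact hi hx hy hxy
  have hinj := inj_of_sphere (by omega : 2 ≤ k + 1) hLD hinjS
  obtain ⟨δ, hδ, hinj2, hLD2⟩ := inj_nhd hLD hinj
  obtain ⟨σ, hσi, hσL, hσb, hσ⟩ := Pool.Agent.Y514.SH.exists_shrink' (k + 1) hδ
  obtain ⟨G, O', R', hG1, hG2, hG3, hG4⟩ := Pool.Agent.Y702.SH.extO (k + 1) (fun x => H' (σ x))
    (fun x y hxy => hσi (hinj2 (mem_ball_zero_iff.2 (hσb x)) (mem_ball_zero_iff.2 (hσb y)) hxy))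
    (fun x => Pool.Agent.Y522.LD.comp_fun (g := H') (f := σ) (hLD2 _ (hσb x)) (hσL x)) 1
  have hG5 : ∀ x, ‖x‖ ≤ 1 → G x = H' x := by
    intro x hx
    rw [hG3 x hx]
    simp only [hσ x hx]
  refine ⟨G, O', R', hG1, hG2, fun x hx => ?_, fun x hx hxO => ?_, fun x hx => ?_, hG4⟩
  · rw [hG5 x hx]
    by_cases hxC : x ∈ (Subtype.val : UBall (k + 1) → E (k + 1)) '' C
    · obtain ⟨y, -, rfl⟩ := hxC
      have h2 := hF'ε y
      rw [hH'1 y]
      rw [hF] at h2
      exact h2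
    · rw [hoff x hxC, sub_self, norm_zero]
      exact hε
  · rw [hG5 x hx]
    refine hoff x ?_
    rintro ⟨y, hy, rfl⟩
    exact hxO (hCO hy)
  · rw [hG5 x hx.le]
    exact hoff x (hsph x hx)

end Pool.Agent.H865_sch
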