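import Pool.Agent.Y522.Sch

/-!
# Immersions of the closed ball which are injective on the sphere

A local diffeomorphism from the closed unit ball of `ℝⁿ` (`n ≥ 2`) to `ℝⁿ` which is injective on the unit sphere is
injective.
-/

set_option autoImplicit false

open Set Filter Topology Metric Function
open scoped Manifold ContDiff

noncomputable section

namespace Pool.Agent.H865_sch

open Pool.Agent.Y522

variable {n : ℕ} {F : E n → E n}

/-- near a point with exactly one preimage the map is injective -/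
theorem inj_near (hc : ContinuousOn F (closedBall 0 1)) {q : E n} (hq : ‖q‖ ≤ 1) (hLD : LD n F q)
    (h1 : ∀ x, ‖x‖ ≤ 1 → F x = F q → x = q) :
    ∃ V ∈ 𝓝 (F q), ∀ x x', ‖x‖ ≤ 1 → ‖x'‖ ≤ 1 → F x ∈ V → F x = F x' → x = x' := by
  obtain ⟨u, hu, hinj⟩ := hLD.eventually_injOn
  obtain ⟨v, hv1, hv2, hv3⟩ := _root_.mem_nhds_iff.1 hu
  have hK : IsCompact (closedBall (0 : E n) 1 \ v) := (isCompact_closedBall 0 1).diff hv2
  have hK2 : IsCompact (F '' (closedBall (0 : E n) 1 \ v)) := hK.image_of_continuousOn (hc.mono diff_subset)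
  refine ⟨(F '' (closedBall (0 : E n) 1 \ v))ᶜ, hK2.isClosed.isOpen_compl.mem_nhds ?_, ?_⟩
  · rintro ⟨x, ⟨hx1, hx2⟩, hx3⟩
    rw [mem_closedBall_zero_iff] at hx1
    exact hx2 (h1 x hx1 hx3 ▸ hv3)
  · intro x x' hx hx' hV hxx
    have g1 : x ∈ v := by
      by_contra g
      exact hV ⟨x, ⟨mem_closedBall_zero_iff.2 hx, g⟩, rfl⟩
    have g2 : x' ∈ v := by
      by_contra g
      exact hV ⟨x', ⟨mem_closedBall_zero_iff.2 hx', g⟩, hxx.symm⟩
    exact hinj (hv1 g1) (hv1 g2) hxx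

theorem sphere_disjoint (hn : 2 ≤ n) (hLD : ∀ x, ‖x‖ ≤ 1 → LD n F x) (hS : InjOn F (sphere 0 1)) :
    ∀ x q, ‖x‖ < 1 → ‖q‖ = 1 → F x ≠ F q := by
  have hc : ContinuousOn F (closedBall 0 1) := fun x hx =>
    (hLD x (mem_closedBall_zero_iff.1 hx)).continuousAt.continuousWithinAt
  have hTo : IsOpen (F '' ball 0 1) :=
    isOpen_image_of_LD isOpen_ball fun x hx => hLD x (mem_ball_zero_iff.1 hx).le
  have hrank : 1 < Module.rank ℝ (E n) := by
    rw [rank_eq_card_basis (EuclideanSpace.basisFun (Fin n) ℝ).toBasis, Fintype.card_fin]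
    exact_mod_cast hn
  have hpre : PreconnectedSpace (sphere (0 : E n) 1) :=
    Subtype.preconnectedSpace (isPreconnected_sphere hrank 0 1)
  have hFS : Continuous fun q : sphere (0 : E n) 1 => F q.1 :=
    (hc.mono sphere_subset_closedBall).domRestrict
  let A : Set (sphere (0 : E n) 1) := {q | F q.1 ∉ F '' ball 0 1}
  have hA1 : IsClosed A := (hTo.preimage hFS).isClosed_compl
  have hA2 : IsOpen A := by
    rw [isOpen_iff_mem_nhds]
    intro q hq
    have hq1 : ‖q.1‖ = 1 := mem_sphere_zero_iff_norm.1 q.2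
    obtain ⟨V, hV, hV2⟩ := inj_near hc hq1.le (hLD q.1 hq1.le) (fun x hx hxq => by
      rcases hx.lt_or_eq with h | h
      · exact absurd ⟨x, mem_ball_zero_iff.2 h, hxq⟩ hq
      · exact hS (mem_sphere_zero_iff_norm.2 h) q.2 hxq)
    filter_upwards [hFS.continuousAt.preimage_mem_nhds hV] with q' hq'
    rintro ⟨x, hx, hxq⟩
    rw [mem_ball_zero_iff] at hx
    have hq'1 : ‖q'.1‖ = 1 := mem_sphere_zero_iff_norm.1 q'.2
    have h2 := hV2 q'.1 x hq'1.le hx.le hq' hxq.symm
    rw [← h2, hq'1] at hx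
    exact lt_irrefl _ hx
  have hA3 : A.Nonempty := by
    by_contra hcon
    rw [not_nonempty_iff_eq_empty] at hcon
    have h1 : F '' closedBall 0 1 = F '' ball 0 1 := by
      apply Subset.antisymm
      · rintro _ ⟨x, hx, rfl⟩
        rw [mem_closedBall_zero_iff] at hx
        rcases hx.lt_or_eq with h | h
        · exact ⟨x, mem_ball_zero_iff.2 h, rfl⟩
        · by_contra g
          have : (⟨x, mem_sphere_zero_iff_norm.2 h⟩ : sphere (0 : E n) 1) ∈ A := g
          rw [hcon] at this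
          exact this
      · exact image_mono ball_subset_closedBall
    have h2 : IsCompact (F '' closedBall 0 1) := (isCompact_closedBall 0 1).image_of_continuousOn hc
    rw [h1] at h2
    have h3 : F '' ball 0 1 = univ :=
      IsClopen.eq_univ ⟨h2.isClosed, hTo⟩ ⟨F 0, 0, mem_ball_self one_pos, rfl⟩
    rw [h3] at h2
    have : Nontrivial (E n) := by
      have : Nonempty (Fin n) := ⟨⟨0, by omega⟩⟩
      infer_instance
    exact NoncompactSpace.noncompact_univ h2
  have hA4 := IsClopen.eq_univ ⟨hA1, hA2⟩ hA3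
  intro x q hx hq hxq
  have h1 : (⟨q, mem_sphere_zero_iff_norm.2 hq⟩ : sphere (0 : E n) 1) ∈ A := by rw [hA4]; exact mem_univ _
  exact h1 ⟨x, mem_ball_zero_iff.2 hx, hxq⟩

/-- **Immersions of the closed ball which are injective on the sphere are injective.** -/
theorem inj_of_sphere (hn : 2 ≤ n) (hLD : ∀ x, ‖x‖ ≤ 1 → LD n F x) (hS : InjOn F (sphere 0 1)) :
    InjOn F (closedBall 0 1) := by
  have hc : ContinuousOn F (closedBall 0 1) := fun x hx =>
    (hLD x (mem_closedBall_zero_iff.1 hx)).continuousAt.continuousWithinAt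
  have hdis := sphere_disjoint hn hLD hS
  have hopen : ∀ U : Set (E n), IsOpen U → IsOpen (F '' (U ∩ ball 0 1)) := fun U hU =>
    isOpen_image_of_LD (hU.inter isOpen_ball) fun x hx => hLD x (mem_ball_zero_iff.1 hx.2).le
  have hball : ∀ x x', ‖x‖ < 1 → ‖x'‖ < 1 → F x = F x' → x = x' := by
    by_contra hcon
    push Not at hcon
    obtain ⟨a, a', ha, ha', haa, hne⟩ := hcon
    let D : Set (E n) := {y | ∃ x x', ‖x‖ < 1 ∧ ‖x'‖ < 1 ∧ x ≠ x' ∧ F x = y ∧ F x' = y}
    have hDo : IsOpen D := by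
      rw [isOpen_iff_mem_nhds]
      rintro y ⟨x, x', hx1, hx1', hxx, hx, hx'⟩
      obtain ⟨U, V, hU, hV, hxU, hxV, hUV⟩ := t2_separation hxx
      have h1 : F '' (U ∩ ball 0 1) ∩ F '' (V ∩ ball 0 1) ∈ 𝓝 y := by
        apply IsOpen.mem_nhds ((hopen U hU).inter (hopen V hV))
        exact ⟨⟨x, ⟨hxU, mem_ball_zero_iff.2 hx1⟩, hx⟩, ⟨x', ⟨hxV, mem_ball_zero_iff.2 hx1'⟩, hx'⟩⟩
      filter_upwards [h1] with z hz
      obtain ⟨⟨a, ha, haz⟩, ⟨b, hb, hbz⟩⟩ := hz
      refine ⟨a, b, mem_ball_zero_iff.1 ha.2, mem_ball_zero_iff.1 hb.2, ?_, haz, hbz⟩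
      rintro rfl
      exact (Set.disjoint_left.mp hUV) ha.1 hb.1
    have hloc : ∀ x : E n, ∃ U : Set (E n), IsOpen U ∧ (‖x‖ ≤ 1 → x ∈ U) ∧ InjOn F U := by
      intro x
      by_cases hx : ‖x‖ ≤ 1
      · obtain ⟨u, hu, hinj⟩ := (hLD x hx).eventually_injOn
        obtain ⟨v, hv1, hv2, hv3⟩ := _root_.mem_nhds_iff.mp hu
        exact ⟨v, hv2, fun _ => hv3, hinj.mono hv1⟩
      · exact ⟨∅, isOpen_empty, fun h => absurd h hx, injOn_empty _⟩
    choose U hU1 hU2 hU3 using hloc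
    let W : Set (E n × E n) := ⋃ x, U x ×ˢ U x
    have hW : IsOpen W := isOpen_iUnion fun x => (hU1 x).prod (hU1 x)
    have hB : IsCompact (closedBall (0 : E n) 1 ×ˢ closedBall (0 : E n) 1) :=
      (isCompact_closedBall 0 1).prod (isCompact_closedBall 0 1)
    have hF1 : ContinuousOn (fun p : E n × E n => F p.1) (closedBall 0 1 ×ˢ closedBall 0 1) :=
      hc.comp continuousOn_fst fun p hp => hp.1
    have hF2 : ContinuousOn (fun p : E n × E n => F p.2) (closedBall 0 1 ×ˢ closedBall 0 1) :=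
      hc.comp continuousOn_snd fun p hp => hp.2
    have hQ : IsCompact (((closedBall (0 : E n) 1 ×ˢ closedBall (0 : E n) 1) ∩
        {p : E n × E n | F p.1 - F p.2 = 0}) \ W) := by
      refine IsCompact.diff ?_ hW
      have h1 : IsClosed ((closedBall (0 : E n) 1 ×ˢ closedBall (0 : E n) 1) ∩
          (fun p : E n × E n => F p.1 - F p.2) ⁻¹' {0}) :=
        (hF1.sub hF2).preimage_isClosed_of_isClosed hB.isClosed isClosed_singleton
      exact hB.of_isClosed_subset h1 inter_subset_left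
    have hQ2 : IsClosed ((fun p : E n × E n => F p.1) '' (((closedBall (0 : E n) 1 ×ˢ closedBall (0 : E n) 1) ∩
        {p : E n × E n | F p.1 - F p.2 = 0}) \ W)) :=
      (hQ.image_of_continuousOn (hF1.mono fun p hp => hp.1.1)).isClosed
    have hDQ : D ⊆ (fun p : E n × E n => F p.1) '' (((closedBall (0 : E n) 1 ×ˢ closedBall (0 : E n) 1) ∩
        {p : E n × E n | F p.1 - F p.2 = 0}) \ W) := by
      rintro y ⟨x, x', hx1, hx1', hxx, hx, hx'⟩
      refine ⟨(x, x'), ⟨⟨⟨mem_closedBall_zero_iff.2 hx1.le, mem_closedBall_zero_iff.2 hx1'.le⟩, ?_⟩, ?_⟩, hx⟩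
      · show F x - F x' = 0
        rw [hx, hx', sub_self]
      · intro hxW
        obtain ⟨w, hw⟩ := mem_iUnion.mp hxW
        exact hxx (hU3 w hw.1 hw.2 (by show F x = F x'; rw [hx, hx']))
    have hTp : IsPreconnected (F '' ball 0 1) :=
      (convex_ball (0 : E n) 1).isPreconnected.image F (hc.mono ball_subset_closedBall)
    have hDT : F '' ball 0 1 ⊆ D := by
      refine hTp.subset_of_closure_inter_subset hDo ?_ ?_
      · exact ⟨F a, ⟨a, mem_ball_zero_iff.2 ha, rfl⟩, a, a', ha, ha', hne, rfl, haa.symm⟩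
      · rintro y ⟨hy, z, hz, hzy⟩
        have h2 := closure_minimal hDQ hQ2 hy
        obtain ⟨⟨x, x'⟩, ⟨⟨⟨hx1, hx1'⟩, hx2⟩, hx3⟩, hx⟩ := h2
        have hx2' : F x = F x' := sub_eq_zero.1 hx2
        have hx4 : F x = y := hx
        have hz' := mem_ball_zero_iff.1 hz
        have hb : ∀ w, w ∈ closedBall (0 : E n) 1 → F w = y → ‖w‖ < 1 := by
          intro w hw hwy
          rw [mem_closedBall_zero_iff] at hw
          rcases hw.lt_or_eq with h | h
          · exact h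
          · exact absurd (hzy.trans hwy.symm) (hdis z w hz' h)
        refine ⟨x, x', hb x hx1 hx4, hb x' hx1' (hx2' ▸ hx4), ?_, hx4, hx2' ▸ hx4⟩
        rintro rfl
        exact hx3 (mem_iUnion.mpr ⟨x, hU2 x (mem_closedBall_zero_iff.1 hx1), hU2 x (mem_closedBall_zero_iff.1 hx1)⟩)
    -- a point on the sphere
    obtain ⟨q, hq⟩ : ∃ q : E n, ‖q‖ = 1 := by
      refine ⟨EuclideanSpace.single (⟨0, by omega⟩ : Fin n) (1 : ℝ), ?_⟩
      rw [EuclideanSpace.norm_single, norm_one]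
    obtain ⟨V, hV, hV2⟩ := inj_near hc hq.le (hLD q hq.le) (fun x hx hxq => by
      rcases hx.lt_or_eq with h | h
      · exact absurd hxq (hdis x q h hq)
      · exact hS (mem_sphere_zero_iff_norm.2 h) (mem_sphere_zero_iff_norm.2 hq) hxq)
    have hqc : q ∈ closure (ball (0 : E n) 1) := by
      rw [closure_ball (0 : E n) one_ne_zero, mem_closedBall_zero_iff]
      exact hq.le
    obtain ⟨x, hxV, hxb⟩ := mem_closure_iff_nhds.1 hqc _ ((hLD q hq.le).continuousAt.preimage_mem_nhds hV)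
    obtain ⟨b, b', hb, hb', hne', hbx, hbx'⟩ := hDT ⟨x, hxb, rfl⟩
    have hbV : F b ∈ V := by rw [hbx]; exact hxV
    exact hne' (hV2 b b' hb.le hb'.le hbV (hbx.trans hbx'.symm))
  intro x hx x' hx' hxx
  rw [mem_closedBall_zero_iff] at hx hx'
  rcases hx.lt_or_eq with h | h <;> rcases hx'.lt_or_eq with h' | h'
  · exact hball x x' h h' hxx
  · exact absurd hxx (hdis x x' h h')
  · exact absurd hxx.symm (hdis x' x h' h)
  · exact hS (mem_sphere_zero_iff_norm.2 h) (mem_sphere_zero_iff_norm.2 h') hxx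

/-- local diffeomorphisms near the closed ball, injective on the closed ball -/
theorem inj_nhd (hLD : ∀ x, ‖x‖ ≤ 1 → LD n F x) (hi : InjOn F (closedBall 0 1)) :
    ∃ δ : ℝ, 0 < δ ∧ InjOn F (ball 0 (1 + δ)) ∧ ∀ x, ‖x‖ < 1 + δ → LD n F x := by
  obtain ⟨t, ht, hti⟩ := hi.exists_mem_nhdsSet (isCompact_closedBall 0 1)
    (fun x hx => (hLD x (mem_closedBall_zero_iff.1 hx)).continuousAt)
    (fun x hx => (hLD x (mem_closedBall_zero_iff.1 hx)).eventually_injOn)
  have ht2 : t ∩ {x | LD n F x} ∈ 𝓝ˢ (closedBall (0 : E n) 1) := by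
    refine Filter.inter_mem ht ?_
    rw [mem_nhdsSet_iff_forall]
    intro x hx
    exact (hLD x (mem_closedBall_zero_iff.1 hx)).eventually
  obtain ⟨u, hu1, hu2, hu3⟩ := mem_nhdsSet_iff_exists.1 ht2
  obtain ⟨δ, hδ, hδ2⟩ := (isCompact_closedBall (0 : E n) 1).exists_thickening_subset_open hu1 hu2
  have hth : thickening δ (closedBall (0 : E n) 1) = ball 0 (1 + δ) := by
    rw [thickening_closedBall hδ zero_le_one, add_comm]
  rw [hth] at hδ2
  exact ⟨δ, hδ, fun x hx y hy hxy => hti (hu3 (hδ2 hx)).1 (hu3 (hδ2 hy)).1 hxy,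
    fun x hx => (hu3 (hδ2 (mem_ball_zero_iff.2 hx))).2⟩

end Pool.Agent.H865_sch
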